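import Pool.Agent.BE01.StmtsC

/-!
# Squad BE01, module DIA: square root and wave operators of a diagonal operator
-/

namespace Pool.Agent.Helper82_BE01

open Set Filter Topology MeasureTheory
open scoped InnerProductSpace ENNReal
open Pool.Agent.BE01

noncomputable section

variable {H : Type} [NormedAddCommGroup H] [InnerProductSpace ℝ H] {κ : Type}

/-- Two vectors with the same coordinates are equal. -/
theorem ext_basis (b : HilbertBasis κ ℝ H) {x y : H} (h : ∀ k, ⟪b k, x⟫_ℝ = ⟪b k, y⟫_ℝ) :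
    x = y := by
  apply b.repr.injective
  ext k
  rw [b.repr_apply_apply, b.repr_apply_apply]
  exact h k

/-- Diagonal operators with bounded coefficients. -/
theorem exists_diag (b : HilbertBasis κ ℝ H) (c : κ → ℝ) (B : ℝ) (hB : 0 ≤ B)
    (hc : ∀ k, |c k| ≤ B) :
    ∃ D : H →L[ℝ] H, (∀ h k, ⟪b k, D h⟫_ℝ = c k * ⟪b k, h⟫_ℝ) ∧ ∀ h, ‖D h‖ ≤ B * ‖h‖ := by
  have two : (2 : ℝ≥0∞).toReal = 2 := by norm_num
  have hpos : 0 < (2 : ℝ≥0∞).toReal := by norm_num
  have hmem : ∀ f : lp (fun _ : κ => ℝ) 2, Memℓp (fun k => c k * f k) 2 := by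
    intro f
    have hf : Summable fun k => ‖f k‖ ^ (2 : ℝ≥0∞).toReal := (lp.memℓp f).summable hpos
    apply memℓp_gen
    have := hf.mul_left (B ^ (2 : ℝ≥0∞).toReal)
    refine Summable.of_nonneg_of_le (fun k => by positivity) (fun k => ?_) this
    rw [← Real.mul_rpow hB (norm_nonneg _)]
    apply Real.rpow_le_rpow (norm_nonneg _) _ hpos.le
    rw [norm_mul]
    exact mul_le_mul_of_nonneg_right (hc k) (norm_nonneg _)
  let T : lp (fun _ : κ => ℝ) 2 →ₗ[ℝ] lp (fun _ : κ => ℝ) 2 :=
    { toFun := fun f => ⟨fun k => c k * f k, hmem f⟩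
      map_add' := by
        intro f g
        ext k
        simp [mul_add]
      map_smul' := by
        intro r f
        ext k
        simp [mul_left_comm] }
  have hT : ∀ f, ‖T f‖ ≤ B * ‖f‖ := by
    intro f
    apply lp.norm_le_of_forall_sum_le hpos (by positivity)
    intro s
    calc ∑ i ∈ s, ‖(T f) i‖ ^ (2 : ℝ≥0∞).toReal
        ≤ ∑ i ∈ s, B ^ (2 : ℝ≥0∞).toReal * ‖f i‖ ^ (2 : ℝ≥0∞).toReal := by
          apply Finset.sum_le_sum
          intro i _
          rw [← Real.mul_rpow hB (norm_nonneg _)]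
          apply Real.rpow_le_rpow (norm_nonneg _) _ hpos.le
          show ‖c i * f i‖ ≤ B * ‖f i‖
          rw [norm_mul]
          exact mul_le_mul_of_nonneg_right (hc i) (norm_nonneg _)
      _ = B ^ (2 : ℝ≥0∞).toReal * ∑ i ∈ s, ‖f i‖ ^ (2 : ℝ≥0∞).toReal := by
          rw [Finset.mul_sum]
      _ ≤ B ^ (2 : ℝ≥0∞).toReal * ‖f‖ ^ (2 : ℝ≥0∞).toReal := by
          apply mul_le_mul_of_nonneg_left _ (by positivity)
          exact lp.sum_rpow_le_norm_rpow hpos f s
      _ = (B * ‖f‖) ^ (2 : ℝ≥0∞).toReal := by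
          rw [Real.mul_rpow hB (norm_nonneg _)]
  let T' : lp (fun _ : κ => ℝ) 2 →L[ℝ] lp (fun _ : κ => ℝ) 2 := T.mkContinuous B hT
  refine ⟨(b.repr.symm.toContinuousLinearEquiv : lp (fun _ : κ => ℝ) 2 →L[ℝ] H).comp
    (T'.comp (b.repr.toContinuousLinearEquiv : H →L[ℝ] lp (fun _ : κ => ℝ) 2)), ?_, ?_⟩
  · intro h k
    rw [← b.repr_apply_apply, ← b.repr_apply_apply]
    show (b.repr (b.repr.symm (T (b.repr h)))) k = _
    rw [b.repr.apply_symm_apply]
    rfl
  · intro h
    show ‖b.repr.symm (T (b.repr h))‖ ≤ _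
    rw [b.repr.symm.norm_map]
    refine (hT _).trans ?_
    rw [b.repr.norm_map]

/-- Continuous linear maps which agree on the basis are equal. -/
theorem clm_ext {E : Type} [NormedAddCommGroup E] [NormedSpace ℝ E] (b : HilbertBasis κ ℝ H)
    {f g : H →L[ℝ] E} (h : ∀ k, f (b k) = g (b k)) : f = g := by
  apply ContinuousLinearMap.ext_on (s := Set.range b)
  · rw [Submodule.dense_iff_topologicalClosure_eq_top]
    exact b.dense_span
  · rintro _ ⟨k, rfl⟩
    exact h k

theorem inner_basis [DecidableEq κ] (b : HilbertBasis κ ℝ H) (i k : κ) :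
    ⟪b i, b k⟫_ℝ = if i = k then 1 else 0 :=
  (orthonormal_iff_ite.1 b.orthonormal) i k

/-- The diagonal operator acts on the basis. -/
theorem diag_basis (b : HilbertBasis κ ℝ H) (c : κ → ℝ) (D : H →L[ℝ] H)
    (hD : ∀ h k, ⟪b k, D h⟫_ℝ = c k * ⟪b k, h⟫_ℝ) (k : κ) : D (b k) = c k • b k := by
  classical
  apply ext_basis b
  intro i
  rw [hD, inner_smul_right, inner_basis]
  by_cases hik : i = k
  · subst hik; simp
  · simp [hik]

/-- Strong continuity follows from the basis. -/
theorem strong_cont (b : HilbertBasis κ ℝ H) (F : ℝ → H →L[ℝ] H) (hF : ∀ τ h, ‖F τ h‖ ≤ ‖h‖)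
    (hb : ∀ k, Continuous fun τ => F τ (b k)) (h : H) : Continuous fun τ => F τ h := by
  let K : Submodule ℝ H :=
    { carrier := {h | Continuous fun τ => F τ h}
      add_mem' := by
        intro x y hx hy
        simp only [Set.mem_ofPred_eq, map_add] at *
        exact hx.add hy
      zero_mem' := by
        simp only [Set.mem_ofPred_eq, map_zero]
        exact continuous_const
      smul_mem' := by
        intro c x hx
        simp only [Set.mem_ofPred_eq, map_smul] at *
        exact hx.const_smul c }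
  have hK : IsClosed (K : Set H) := by
    apply isClosed_of_closure_subset
    intro x hx
    show Continuous fun τ => F τ x
    apply continuous_of_uniform_approx_of_continuous
    intro u hu
    obtain ⟨ε, hε, hu⟩ := Metric.mem_uniformity_dist.1 hu
    obtain ⟨y, hy, hxy⟩ := Metric.mem_closure_iff.1 hx ε hε
    refine ⟨fun τ => F τ y, hy, fun τ => hu ?_⟩
    rw [dist_eq_norm, ← map_sub]
    refine (hF _ _).trans_lt ?_
    rwa [← dist_eq_norm]
  have h1 : Submodule.span ℝ (Set.range b) ≤ K := by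
    rw [Submodule.span_le]
    rintro _ ⟨k, rfl⟩
    exact hb k
  have h2 : (⊤ : Submodule ℝ H) ≤ K := by
    rw [← b.dense_span]
    exact Submodule.topologicalClosure_minimal _ h1 hK
  exact h2 (Submodule.mem_top : h ∈ ⊤)

theorem dia : DiaStmt := by
  classical
  intro H _ _ _ S κ b s hs hS
  -- bound for s
  have hsb : ∀ k, s k ≤ ‖S‖ := by
    intro k
    have h1 := S.le_opNorm (b k)
    rw [hS k, norm_smul, b.orthonormal.1 k, mul_one, mul_one, Real.norm_of_nonneg (hs k).le] at h1
    exact h1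
  have hsq : ∀ k, 0 < Real.sqrt (s k) := fun k => Real.sqrt_pos.2 (hs k)
  have hSd : ∀ h k, ⟪b k, S h⟫_ℝ = s k * ⟪b k, h⟫_ℝ := by
    intro h k
    have : (innerSL ℝ (b k)).comp S = s k • innerSL ℝ (b k) := by
      apply clm_ext b
      intro i
      simp only [ContinuousLinearMap.comp_apply, innerSL_apply_apply,
        smul_apply, smul_eq_mul]
      rw [hS i, inner_smul_right, inner_basis]
      by_cases hik : k = i
      · subst hik; rfl
      · simp [hik]
    have h2 := congrArg (fun f => f h) this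
    simpa using h2
  obtain ⟨R, hR, -⟩ := exists_diag b (fun k => Real.sqrt (s k)) (Real.sqrt ‖S‖)
    (Real.sqrt_nonneg _) (fun k => by
      rw [abs_of_pos (hsq k)]
      exact Real.sqrt_le_sqrt (hsb k))
  have hCe : ∀ τ : ℝ, ∃ D : H →L[ℝ] H, (∀ h k, ⟪b k, D h⟫_ℝ =
      Real.cos (τ / Real.sqrt (s k)) * ⟪b k, h⟫_ℝ) ∧ ∀ h, ‖D h‖ ≤ 1 * ‖h‖ := fun τ =>
    exists_diag b (fun k => Real.cos (τ / Real.sqrt (s k))) 1 zero_le_one
      (fun k => Real.abs_cos_le_one _)
  have hSe : ∀ τ : ℝ, ∃ D : H →L[ℝ] H, (∀ h k, ⟪b k, D h⟫_ℝ =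
      Real.sin (τ / Real.sqrt (s k)) * ⟪b k, h⟫_ℝ) ∧ ∀ h, ‖D h‖ ≤ 1 * ‖h‖ := fun τ =>
    exists_diag b (fun k => Real.sin (τ / Real.sqrt (s k))) 1 zero_le_one
      (fun k => Real.abs_sin_le_one _)
  choose C hC hC1 using hCe
  choose Sn hSn hSn1 using hSe
  have C_le : ∀ τ h, ‖C τ h‖ ≤ ‖h‖ := fun τ h => by simpa using hC1 τ h
  have Sn_le : ∀ τ h, ‖Sn τ h‖ ≤ ‖h‖ := fun τ h => by simpa using hSn1 τ h
  have C_cont : ∀ h, Continuous fun τ => C τ h := by
    intro h
    apply strong_cont b C C_le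
    intro k
    have : (fun τ => C τ (b k)) = fun τ => Real.cos (τ / Real.sqrt (s k)) • b k := by
      funext τ
      exact diag_basis b _ _ (hC τ) k
    rw [this]
    fun_prop
  have Sn_cont : ∀ h, Continuous fun τ => Sn τ h := by
    intro h
    apply strong_cont b Sn Sn_le
    intro k
    have : (fun τ => Sn τ (b k)) = fun τ => Real.sin (τ / Real.sqrt (s k)) • b k := by
      funext τ
      exact diag_basis b _ _ (hSn τ) k
    rw [this]
    fun_prop
  -- integrals
  have intS : ∀ h τ, R (Sn τ h) = ∫ u in (0 : ℝ)..τ, C u h := by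
    intro h τ
    apply ext_basis b
    intro k
    rw [hR, hSn]
    have h1 : ⟪b k, ∫ u in (0 : ℝ)..τ, C u h⟫_ℝ = ∫ u in (0 : ℝ)..τ, ⟪b k, C u h⟫_ℝ := by
      have := ContinuousLinearMap.intervalIntegral_comp_comm (innerSL ℝ (b k))
        ((C_cont h).intervalIntegrable (μ := volume) 0 τ)
      simpa using this.symm
    rw [h1]
    simp_rw [hC]
    rw [intervalIntegral.integral_mul_const]
    have h2 : ∫ x in (0 : ℝ)..τ, Real.cos (x / Real.sqrt (s k)) =
        Real.sqrt (s k) * Real.sin (τ / Real.sqrt (s k)) := by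
      rw [intervalIntegral.integral_comp_div (fun x => Real.cos x) (hsq k).ne']
      simp
    rw [h2]
    ring
  have intC : ∀ h τ, R (C τ h) = R h - ∫ u in (0 : ℝ)..τ, Sn u h := by
    intro h τ
    apply ext_basis b
    intro k
    rw [hR, hC, inner_sub_right, hR]
    have h1 : ⟪b k, ∫ u in (0 : ℝ)..τ, Sn u h⟫_ℝ = ∫ u in (0 : ℝ)..τ, ⟪b k, Sn u h⟫_ℝ := by
      have := ContinuousLinearMap.intervalIntegral_comp_comm (innerSL ℝ (b k))
        ((Sn_cont h).intervalIntegrable (μ := volume) 0 τ)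
      simpa using this.symm
    rw [h1]
    simp_rw [hSn]
    rw [intervalIntegral.integral_mul_const]
    have h2 : ∫ x in (0 : ℝ)..τ, Real.sin (x / Real.sqrt (s k)) =
        Real.sqrt (s k) * (1 - Real.cos (τ / Real.sqrt (s k))) := by
      rw [intervalIntegral.integral_comp_div (fun x => Real.sin x) (hsq k).ne']
      simp
    rw [h2]
    ring
  refine ⟨R, C, Sn, ?_⟩
  refine ⟨?_, ?_, ?_, ?_, ?_, C_le, Sn_le, C_cont, Sn_cont, ?_, ?_, ?_, ?_⟩
  · intro h
    apply ext_basis b
    intro k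
    rw [hR, hR, hSd, ← mul_assoc, Real.mul_self_sqrt (hs k).le]
  · intro x y hxy
    apply ext_basis b
    intro k
    have h1 : ⟪b k, R x⟫_ℝ = ⟪b k, R y⟫_ℝ := by rw [hxy]
    rw [hR, hR] at h1
    exact mul_left_cancel₀ (hsq k).ne' h1
  · intro x y
    have : (innerSL ℝ y).comp R = innerSL ℝ (R y) := by
      apply clm_ext b
      intro i
      simp only [ContinuousLinearMap.comp_apply, innerSL_apply_apply]
      rw [diag_basis b _ R hR i, inner_smul_right, real_inner_comm, real_inner_comm (b i) (R y),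
        hR]
    have h2 := congrArg (fun f => f x) this
    simp only [ContinuousLinearMap.comp_apply, innerSL_apply_apply] at h2
    rw [real_inner_comm, h2, real_inner_comm]
  · intro h
    apply ext_basis b
    intro k
    rw [hC]
    simp
  · intro h
    apply ext_basis b
    intro k
    rw [hSn]
    simp
  · intro τ h
    apply ext_basis b
    intro k
    rw [hR, hC, hC, hR]
    ring
  · intro τ h
    apply ext_basis b
    intro k
    rw [hR, hSn, hSn, hR]
    ring
  · intro h τ
    have h1 : (fun s => R (Sn s h)) = fun s => ∫ u in (0 : ℝ)..s, C u h := by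
      funext s
      exact intS h s
    rw [h1]
    exact intervalIntegral.integral_hasDerivAt_right ((C_cont h).intervalIntegrable _ _)
      ((C_cont h).stronglyMeasurableAtFilter _ _) (C_cont h).continuousAt
  · intro h τ
    have h1 : (fun s => R (C s h)) = fun s => R h - ∫ u in (0 : ℝ)..s, Sn u h := by
      funext s
      exact intC h s
    rw [h1]
    exact (intervalIntegral.integral_hasDerivAt_right ((Sn_cont h).intervalIntegrable _ _)
      ((Sn_cont h).stronglyMeasurableAtFilter _ _) (Sn_cont h).continuousAt).const_sub (R h)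

end

end Pool.Agent.Helper82_BE01
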